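import Mathlib
import Pool.Agent.H74.BaumAmalg

set_option autoImplicit false

namespace Pool.Agent.Results.MP_ce3880_al.FPExtension

open Pool.Agent.H74.Baum

/-- A finitely presented group that is not co-hopfian, with a co-hopfian normal subgroup of
finite index. -/
theorem result :
    ∃ (G : Type) (_ : Group G) (H : Subgroup G),
      Group.IsFinitelyPresented G ∧ H.Normal ∧ H.FiniteIndex ∧
      (∀ f : H →* H, Function.Injective f → Function.Surjective f) ∧
      ∃ f : G →* G, Function.Injective f ∧ ¬ Function.Surjective f :=
  ⟨G, inferInstance, H, inferInstance, inferInstance, inferInstance, H_cohopf, Phi, Phi_inj,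
    Phi_not_surj⟩

end Pool.Agent.Results.MP_ce3880_al.FPExtension
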